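import Pool.Agent.W9.PL.Defs

/-!
# Project PL: random translates of a lattice as a random subset of a grid
-/

set_option autoImplicit false

open MeasureTheory Finset Filter
open scoped Topology

namespace Pool.Agent.W362.PL

variable {n q : ℕ}

/-- half open unit cube -/
def QQ (n : ℕ) : Set (Fin n → ℝ) := Set.pi Set.univ fun _ => Set.Ico (0 : ℝ) 1

/-- cells of the grid -/
def cell (b : ℝ) (x : Fin n → Fin q) : Set (Fin n → ℝ) :=
  Set.pi Set.univ fun k => Set.Ico (b * ((x k : ℕ) : ℝ)) (b * (((x k : ℕ) : ℝ) + 1))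

/-- integer vectors as real vectors -/
def zr (z : Fin n → ℤ) : Fin n → ℝ := fun j => (z j : ℝ)

/-- preimage of a cell -/
def PX (g : Matrix (Fin n) (Fin n) ℝ) (b : ℝ) (x : Fin n → Fin q) : Set (Fin n → ℝ) :=
  {p | g.mulVec p ∈ cell b x}

/-- part of the cube -/
def BZ (g : Matrix (Fin n) (Fin n) ℝ) (b : ℝ) (x : Fin n → Fin q) (z : Fin n → ℤ) :
    Set (Fin n → ℝ) := {σ | σ ∈ QQ n ∧ zr z + σ ∈ PX g b x}

/-- translates which hit the cell -/
def AX (g : Matrix (Fin n) (Fin n) ℝ) (b : ℝ) (x : Fin n → Fin q) : Set (Fin n → ℝ) :=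
  ⋃ z, BZ g b x z

theorem meas_QQ : MeasurableSet (QQ n) := MeasurableSet.univ_pi fun _ => measurableSet_Ico

theorem meas_cell (b : ℝ) (x : Fin n → Fin q) : MeasurableSet (cell b x) :=
  MeasurableSet.univ_pi fun _ => measurableSet_Ico

theorem meas_PX (g : Matrix (Fin n) (Fin n) ℝ) (b : ℝ) (x : Fin n → Fin q) :
    MeasurableSet (PX g b x) := by
  have h : Continuous fun p : Fin n → ℝ => g.mulVec p := by
    apply continuous_pi
    intro i
    unfold Matrix.mulVec dotProduct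
    fun_prop
  exact h.measurable (meas_cell b x)

theorem meas_BZ (g : Matrix (Fin n) (Fin n) ℝ) (b : ℝ) (x : Fin n → Fin q) (z : Fin n → ℤ) :
    MeasurableSet (BZ g b x z) := by
  have h : Measurable fun σ : Fin n → ℝ => zr z + σ := measurable_const_add _
  exact meas_QQ.inter (h (meas_PX g b x))

theorem meas_AX (g : Matrix (Fin n) (Fin n) ℝ) (b : ℝ) (x : Fin n → Fin q) :
    MeasurableSet (AX g b x) := MeasurableSet.iUnion fun z => meas_BZ g b x z

theorem vol_QQ : volume (QQ n) = 1 := by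
  unfold QQ
  rw [Real.volume_pi_Ico]
  simp

theorem vol_cell (b : ℝ) (hb : 0 < b) (x : Fin n → Fin q) :
    volume (cell b x) = ENNReal.ofReal (b ^ n) := by
  unfold cell
  rw [Real.volume_pi_Ico]
  have : ∀ i : Fin n, ENNReal.ofReal (b * (((x i : ℕ) : ℝ) + 1) - b * ((x i : ℕ) : ℝ)) =
      ENNReal.ofReal b := by
    intro i
    congr 1
    ring
  rw [Finset.prod_congr rfl fun i _ => this i, Finset.prod_const, Finset.card_univ,
    Fintype.card_fin, ENNReal.ofReal_pow hb.le]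

theorem vol_PX (g : Matrix (Fin n) (Fin n) ℝ) (b : ℝ) (hb : 0 < b) (hg : g.det ≠ 0)
    (x : Fin n → Fin q) : volume (PX g b x) = ENNReal.ofReal (b ^ n / |g.det|) := by
  have h1 : PX g b x = (Matrix.toLin' g) ⁻¹' (cell b x) := by
    ext p
    simp [PX, Matrix.toLin'_apply]
  have h2 : LinearMap.det (Matrix.toLin' g) ≠ 0 := by
    rw [LinearMap.det_toLin']
    exact hg
  rw [h1, Measure.addHaar_preimage_linearMap volume h2, vol_cell b hb, LinearMap.det_toLin',
    ← ENNReal.ofReal_mul (abs_nonneg _)]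
  congr 1
  rw [abs_inv]
  field_simp

theorem disj_BZ (g : Matrix (Fin n) (Fin n) ℝ) (b : ℝ)
    (hz : ∀ z : Fin n → ℤ, z ≠ 0 → ∃ k, b ≤ |(g.mulVec fun j => (z j : ℝ)) k|)
    (x : Fin n → Fin q) : Pairwise (Function.onFun Disjoint (BZ g b x)) := by
  intro z z' hzz
  rw [Function.onFun, Set.disjoint_left]
  rintro σ ⟨_, h1⟩ ⟨_, h2⟩
  obtain ⟨k, hk⟩ := hz (z - z') (sub_ne_zero.mpr hzz)
  have e : (g.mulVec fun j => (((z - z') j : ℤ) : ℝ)) =
      g.mulVec (zr z + σ) - g.mulVec (zr z' + σ) := by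
    rw [← Matrix.mulVec_sub]
    congr 1
    funext j
    simp [zr]
  rw [e] at hk
  have k1 := h1 k (Set.mem_univ k)
  have k2 := h2 k (Set.mem_univ k)
  rw [Set.mem_Ico] at k1 k2
  rw [Pi.sub_apply] at hk
  have : |g.mulVec (zr z + σ) k - g.mulVec (zr z' + σ) k| < b := by
    rw [abs_lt]
    constructor <;> nlinarith
  linarith

theorem vol_AX (g : Matrix (Fin n) (Fin n) ℝ) (b : ℝ) (hb : 0 < b) (hg : g.det ≠ 0)
    (hz : ∀ z : Fin n → ℤ, z ≠ 0 → ∃ k, b ≤ |(g.mulVec fun j => (z j : ℝ)) k|)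
    (x : Fin n → Fin q) : volume (AX g b x) = ENNReal.ofReal (b ^ n / |g.det|) := by
  rw [← vol_PX g b hb hg x]
  unfold AX
  rw [measure_iUnion (disj_BZ g b hz x) (meas_BZ g b x)]
  -- decomposition of `PX`
  let Fl : (Fin n → ℤ) → Set (Fin n → ℝ) := fun z => {p | ∀ k, ⌊p k⌋ = z k}
  have hFm : ∀ z, MeasurableSet (Fl z) := by
    intro z
    have : Fl z = ⋂ k, {p : Fin n → ℝ | ⌊p k⌋ = z k} := by
      ext p; simp [Fl]
    rw [this]
    apply MeasurableSet.iInter
    intro k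
    have hm : Measurable fun p : Fin n → ℝ => ⌊p k⌋ :=
      Int.measurable_floor.comp (measurable_pi_apply k)
    exact hm (measurableSet_singleton (z k))
  have hdec : PX g b x = ⋃ z, PX g b x ∩ Fl z := by
    ext p
    simp only [Set.mem_iUnion, Set.mem_inter_iff]
    constructor
    · intro h
      exact ⟨fun k => ⌊p k⌋, h, fun k => rfl⟩
    · rintro ⟨_, h, _⟩
      exact h
  have hdisj : Pairwise (Function.onFun Disjoint fun z => PX g b x ∩ Fl z) := by
    intro z z' hzz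
    rw [Function.onFun, Set.disjoint_left]
    rintro p ⟨_, h1⟩ ⟨_, h2⟩
    apply hzz
    funext k
    rw [← h1 k, ← h2 k]
  conv_rhs => rw [hdec]
  rw [measure_iUnion hdisj (fun z => (meas_PX g b x).inter (hFm z))]
  congr 1
  funext z
  rw [← measure_preimage_add volume (zr z) (PX g b x ∩ Fl z)]
  congr 1
  ext σ
  simp only [BZ, Set.mem_ofPred_eq, Set.mem_preimage, Set.mem_inter_iff]
  have : σ ∈ QQ n ↔ zr z + σ ∈ Fl z := by
    simp only [QQ, Fl, Set.mem_pi, Set.mem_univ, true_implies, Set.mem_Ico, Set.mem_ofPred_eq]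
    apply forall_congr'
    intro k
    have e : (zr z + σ) k = (z k : ℝ) + σ k := rfl
    rw [e, Int.floor_intCast_add]
    constructor
    · rintro ⟨h1, h2⟩
      have : ⌊σ k⌋ = 0 := by
        rw [Int.floor_eq_zero_iff]
        exact ⟨h1, h2⟩
      omega
    · intro h
      have h0 : ⌊σ k⌋ = 0 := by omega
      rw [Int.floor_eq_zero_iff] at h0
      exact h0
  tauto

open Classical in
/-- the random subset of the grid -/
noncomputable def SS (g : Matrix (Fin n) (Fin n) ℝ) (b : ℝ) (q : ℕ) (σ : Fin n → ℝ) :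
    Finset (Fin n → Fin q) := univ.filter fun x => σ ∈ AX g b x

theorem mem_SS (g : Matrix (Fin n) (Fin n) ℝ) (b : ℝ) (q : ℕ) (σ : Fin n → ℝ)
    (x : Fin n → Fin q) : x ∈ SS g b q σ ↔ σ ∈ AX g b x := by
  classical
  unfold SS
  simp

/-- level sets -/
def LV (g : Matrix (Fin n) (Fin n) ℝ) (b : ℝ) (S : Finset (Fin n → Fin q)) :
    Set (Fin n → ℝ) := {σ | σ ∈ QQ n ∧ SS g b q σ = S}

theorem meas_LV (g : Matrix (Fin n) (Fin n) ℝ) (b : ℝ) (S : Finset (Fin n → Fin q)) :
    MeasurableSet (LV g b S) := by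
  classical
  have : LV g b S = QQ n ∩ ⋂ x : Fin n → Fin q, (if x ∈ S then AX g b x else (AX g b x)ᶜ) := by
    ext σ
    simp only [LV, Set.mem_ofPred_eq, Set.mem_inter_iff, Set.mem_iInter, SS]
    constructor
    · rintro ⟨h1, h2⟩
      refine ⟨h1, fun x => ?_⟩
      by_cases hx : x ∈ S
      · rw [if_pos hx]
        rw [← h2] at hx
        exact (mem_filter.mp hx).2
      · rw [if_neg hx]
        intro h3
        apply hx
        rw [← h2]
        exact mem_filter.mpr ⟨mem_univ x, h3⟩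
    · rintro ⟨h1, h2⟩
      refine ⟨h1, ?_⟩
      ext x
      have := h2 x
      by_cases hx : x ∈ S
      · rw [if_pos hx] at this
        simp [hx, this]
      · rw [if_neg hx] at this
        simp [hx]
        exact this
  rw [this]
  apply meas_QQ.inter
  apply MeasurableSet.iInter
  intro x
  split_ifs
  · exact meas_AX g b x
  · exact (meas_AX g b x).compl

theorem sum_LV (g : Matrix (Fin n) (Fin n) ℝ) (b : ℝ) (T : Finset (Finset (Fin n → Fin q))) :
    ∑ S ∈ T, volume (LV g b S) = volume {σ | σ ∈ QQ n ∧ SS g b q σ ∈ T} := by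
  rw [← measure_biUnion_finset]
  · congr 1
    ext σ
    simp only [Set.mem_iUnion, LV, Set.mem_ofPred_eq]
    constructor
    · rintro ⟨S, hS, h1, h2⟩
      exact ⟨h1, h2 ▸ hS⟩
    · rintro ⟨h1, h2⟩
      exact ⟨_, h2, h1, rfl⟩
  · intro S _ S' _ hSS
    rw [Function.onFun, Set.disjoint_left]
    rintro σ ⟨_, h1⟩ ⟨_, h2⟩
    exact hSS (h1.symm.trans h2)
  · intro S _
    exact meas_LV g b S

theorem cover : Pool.Agent.W9.PL.S_cover := by
  intro n q g b hg hb hz
  have hdet : 0 < |g.det| := abs_pos.mpr hg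
  have hbn : 0 < b ^ n := pow_pos hb n
  have hfin : ∀ S : Finset (Fin n → Fin q), volume (LV g b S) ≠ ⊤ := by
    intro S
    apply ne_top_of_le_ne_top ENNReal.one_ne_top
    rw [← vol_QQ (n := n)]
    exact measure_mono fun σ h => h.1
  refine ⟨fun S => |g.det| / b ^ n * (volume (LV g b S)).toReal, ?_, ?_, ?_, ?_⟩
  · intro S
    exact mul_nonneg (by positivity) ENNReal.toReal_nonneg
  · intro x
    rw [← Finset.mul_sum, ← ENNReal.toReal_sum (fun S _ => hfin S), sum_LV]
    have h1 : {σ | σ ∈ QQ n ∧ SS g b q σ ∈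
        univ.filter (fun S : Finset (Fin n → Fin q) => x ∈ S)} = AX g b x := by
      ext σ
      simp only [mem_filter, mem_univ, true_and, SS, Set.mem_ofPred_eq]
      constructor
      · rintro ⟨_, h⟩
        exact h
      · intro h
        refine ⟨?_, h⟩
        simp only [AX, Set.mem_iUnion] at h
        obtain ⟨z, h⟩ := h
        exact h.1
    rw [h1, vol_AX g b hb hg hz x, ENNReal.toReal_ofReal (by positivity)]
    field_simp
  · intro S hS x hx y hy hxy
    have h1 : (LV g b S).Nonempty := by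
      by_contra h
      rw [Set.not_nonempty_iff_eq_empty] at h
      apply hS
      simp only [h, measure_empty, ENNReal.toReal_zero, mul_zero]
    obtain ⟨σ, _, hσ⟩ := h1
    rw [← hσ] at hx hy
    have hx' : σ ∈ AX g b x := (mem_SS g b q σ x).mp hx
    have hy' : σ ∈ AX g b y := (mem_SS g b q σ y).mp hy
    obtain ⟨z, _, hzx⟩ := Set.mem_iUnion.mp hx'
    obtain ⟨z', _, hzy⟩ := Set.mem_iUnion.mp hy'
    have k1 : ∀ k, b * ((x k : ℕ) : ℝ) ≤ g.mulVec (zr z + σ) k ∧
        g.mulVec (zr z + σ) k < b * (((x k : ℕ) : ℝ) + 1) := fun k => hzx k (Set.mem_univ k)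
    have k2 : ∀ k, b * ((y k : ℕ) : ℝ) ≤ g.mulVec (zr z' + σ) k ∧
        g.mulVec (zr z' + σ) k < b * (((y k : ℕ) : ℝ) + 1) := fun k => hzy k (Set.mem_univ k)
    refine ⟨z - z', ?_, ?_⟩
    · intro h
      have hzz : z = z' := sub_eq_zero.mp h
      subst hzz
      apply hxy
      funext k
      obtain ⟨a1, a2⟩ := k1 k
      obtain ⟨b1, b2⟩ := k2 k
      have c1 : ((x k : ℕ) : ℝ) < ((y k : ℕ) : ℝ) + 1 :=
        lt_of_mul_lt_mul_left (lt_of_le_of_lt a1 b2) hb.le
      have c2 : ((y k : ℕ) : ℝ) < ((x k : ℕ) : ℝ) + 1 :=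
        lt_of_mul_lt_mul_left (lt_of_le_of_lt b1 a2) hb.le
      have d1 : (x k : ℕ) < (y k : ℕ) + 1 := by exact_mod_cast c1
      have d2 : (y k : ℕ) < (x k : ℕ) + 1 := by exact_mod_cast c2
      apply Fin.ext
      omega
    · intro k
      have e : (g.mulVec fun j => (((z - z') j : ℤ) : ℝ)) =
          g.mulVec (zr z + σ) - g.mulVec (zr z' + σ) := by
        rw [← Matrix.mulVec_sub]
        congr 1
        funext j
        simp [zr]
      rw [e, Pi.sub_apply]
      obtain ⟨a1, a2⟩ := k1 k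
      obtain ⟨b1, b2⟩ := k2 k
      have habs : ((((x k : ℕ) : ℤ) - ((y k : ℕ) : ℤ)).natAbs : ℝ) =
          |((x k : ℕ) : ℝ) - ((y k : ℕ) : ℝ)| := by
        rw [Nat.cast_natAbs]
        push_cast
        rfl
      rw [habs, abs_le]
      have f1 := le_abs_self (((x k : ℕ) : ℝ) - ((y k : ℕ) : ℝ))
      have f2 := neg_abs_le (((x k : ℕ) : ℝ) - ((y k : ℕ) : ℝ))
      constructor <;> nlinarith
  · rw [← Finset.mul_sum, ← ENNReal.toReal_sum (fun S _ => hfin S), sum_LV]
    have h1 : {σ | σ ∈ QQ n ∧ SS g b q σ ∈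
        (univ : Finset (Finset (Fin n → Fin q)))} = QQ n := by
      ext σ
      simp
    rw [h1, vol_QQ, ENNReal.toReal_one, mul_one]

end Pool.Agent.W362.PL
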